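import Pool.Agent.Work.MP_5bd7f1_co.KZ.Dis
import Pool.Agent.Work.MP_5bd7f1_co.PD.Draw

set_option autoImplicit false

namespace Pool.Agent.Work.MP_5bd7f1_co.Parked.FewHexagons

/-- the edge sets of the 6-cycles of `G` that have at least `k` edges lying on triangles of `G` -/
def hexagons {V : Type} (G : SimpleGraph V) (k : ℕ) : Set (Set (Sym2 V)) :=
  {E | (∃ (v : V) (p : G.Walk v v), p.IsCycle ∧ p.length = 6 ∧ E = {e | e ∈ p.edges}) ∧
    k ≤ {e ∈ E | ∃ s : Finset V, G.IsNClique 3 s ∧ ∀ x ∈ e, x ∈ s}.ncard}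

/-- A planar graph with pairwise disjoint triangles, no 5-cycle through an edge of a triangle and
few 6-cycles that meet two or three triangles in edges is 3-colourable. -/
theorem result :
  ∀ (V : Type) [Fintype V] (G : SimpleGraph V),
    (∃ (f : V → ℝ × ℝ) (γ : V → V → ℝ → ℝ × ℝ),
      Function.Injective f ∧
      (∀ u v : V, G.Adj u v →
        ContinuousOn (γ u v) (Set.Icc (0:ℝ) 1) ∧ Set.InjOn (γ u v) (Set.Icc (0:ℝ) 1) ∧
        γ u v 0 = f u ∧ γ u v 1 = f v ∧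
        ∀ z : V, ∀ t ∈ Set.Ioo (0:ℝ) 1, γ u v t ≠ f z) ∧
      (∀ u v w x : V, G.Adj u v → G.Adj w x → s(u, v) ≠ s(w, x) →
        ∀ t ∈ Set.Ioo (0:ℝ) 1, ∀ r ∈ Set.Icc (0:ℝ) 1, γ u v t ≠ γ w x r)) →
    (∀ s t : Finset V, G.IsNClique 3 s → G.IsNClique 3 t → s ≠ t → Disjoint s t) →
    (∀ (v : V) (p : G.Walk v v), p.IsCycle → p.length = 5 →
      ∀ s : Finset V, G.IsNClique 3 s → ∀ a ∈ s, ∀ b ∈ s, s(a, b) ∉ p.edges) →
    (hexagons G 2).ncard + 2 * (hexagons G 3).ncard ≤ 23 →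
    G.Colorable 3 := by
  intro V _ G h1 h2 h3 h4
  obtain ⟨φ, hφ⟩ := Pool.Agent.KZ.main (Pool.Agent.Pl.pd_of_drawing G h1) h2 h3 h4
  exact ⟨SimpleGraph.Coloring.mk φ fun h => hφ _ _ h⟩

end Pool.Agent.Work.MP_5bd7f1_co.Parked.FewHexagons
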